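import Pool.Agent.N625.PT.X20
import Pool.Agent.H141R2.FS.Main1
import Pool.Agent.Run7.h672.XC.X18
import Pool.Agent.Run7.h414.DP.XR

/-!
# EVERY large `n`, `4 ∤ n`: four squares with `p = x + 2 y + 5 z`, `p - 2 + N₀`, `p + 4 + N₁` and `p + 10 + N₂` prime, for
# random integers with determinantal digits

The digits of the random integer `v` are given by a determinantal random set `S` of positions (a determinantal point process
with an arbitrary Hermitian kernel): the digit number `i` is `y i` if `i ∈ S` and `x i ≠ y i` otherwise. Examples (their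
existence is not used and not formalised): the edges of a uniform spanning tree of a graph with `k` edges; stationary
determinantal processes with any symbol which is not almost everywhere `0` or almost everywhere `1` (for example the discrete
sine process with any density); independent digits.

Definitions used (in `Pool.Agent.Run7.h414.DP.Law` and `Pool.Agent.Run7.h414.DP.Fam`): `DetLaw`, `GoodPos`, `DetDigits`
(used with `t = 0`: `0 ≤ p v ≤ μ v` with the law `μ` of an integer with determinantal digits).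

Method: the characteristic function is `det (1 + D A)`; the inequality `|det N|² ≤ exp (tr N* N - k)` for
`N = 1 + B D B*`, `A = B* B`, bounds it by `exp (- E)` with an energy `E` which is at least a constant times the number of
the places where the frequency is far from the rational numbers with small denominators. With this input the sieve and the
circle method of the starting library for exchangeable blocks (`Pool.Agent.N625.PT`, in the form for classes of laws of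
`Pool.Agent.Run7.h672.XC`) go through.
-/

set_option autoImplicit false

open Finset
open Pool.Agent.Run7.h414.DP (DC DC_sum DC_nonneg DetDigits fam_dc dc_rcls)

namespace Pool.Agent.Results.MP_40574a_nt.DeterminantalQuadruples

/-- the product of `1 - 1/q` over the primes `q ≤ y` -/
noncomputable def V (y : ℕ) : ℝ := ∏ q ∈ (Icc 1 y).filter Nat.Prime, (1 - 1 / (q : ℝ))

/-- the multiple of the product of the primes `≤ y` given by the integers `h` and `c + κ v` -/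
def Nv (y h : ℕ) (c κ : ℤ) (v : ℕ) : ℤ := ((primorial y * h : ℕ) : ℤ) * (c + κ * v)

/-- the primes `p` with `29 n ≤ p ^ 2 ≤ 30 n` such that `p - 2`, `p + 4`, `p + 10` are prime to `D 0`, `D 1`, `D 2` -/
def Adm (D : Fin 3 → ℕ) (n : ℕ) : Finset ℕ :=
  (range (30 * n + 1)).filter (fun p : ℕ => 29 * n ≤ p ^ 2 ∧ p ^ 2 ≤ 30 * n ∧ p.Prime ∧
    (p - 2).Coprime (D 0) ∧ (p + 4).Coprime (D 1) ∧ (p + 10).Coprime (D 2))

open Classical in
/-- the primes `p` with `29 n ≤ p ^ 2 ≤ 30 n` which have the form `p = x + 2 y + 5 z` for a representation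
`n = x² + y² + z² + w²`, and for which `p - 2 + N 0`, `p + 4 + N 1` and `p + 10 + N 2` are prime -/
noncomputable def Good (n : ℕ) (N : Fin 3 → ℤ) : Finset ℕ :=
  (range (30 * n + 1)).filter (fun p : ℕ => 29 * n ≤ p ^ 2 ∧ p ^ 2 ≤ 30 * n ∧ p.Prime ∧
    (∃ x y z w : ℕ, n = x ^ 2 + y ^ 2 + z ^ 2 + w ^ 2 ∧ p = x + 2 * y + 5 * z) ∧
    ((p : ℤ) - 2 + N 0).toNat.Prime ∧ ((p : ℤ) + 4 + N 1).toNat.Prime ∧ ((p : ℤ) + 10 + N 2).toNat.Prime)

lemma cop_of {a D : ℕ} {N : ℤ} (ha : 1 ≤ a) (hD : 1 ≤ D) (hN : 0 < N) (hDN : (D : ℤ) ∣ N) (hp : (N + (a : ℤ)).toNat.Prime) :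
    a.Coprime D := by
  by_contra hcop
  obtain ⟨q, hqp, hqa, hqb⟩ := Nat.Prime.not_coprime_iff_dvd.1 hcop
  have f1 : (q : ℤ) ∣ N + (a : ℤ) := dvd_add ((by exact_mod_cast hqb : (q : ℤ) ∣ (D : ℤ)).trans hDN) (by exact_mod_cast hqa)
  have f0 : (1 : ℤ) ≤ a := by exact_mod_cast ha
  have f2 : (0 : ℤ) ≤ N + (a : ℤ) := by linarith
  have f3 : q ∣ (N + (a : ℤ)).toNat := by
    rw [← Int.natCast_dvd_natCast, Int.toNat_of_nonneg f2]
    exact f1
  have f4 := (Nat.prime_dvd_prime_iff_eq hqp hp).1 f3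
  have f5 : (q : ℤ) ≤ D := by exact_mod_cast Nat.le_of_dvd (by omega) hqb
  have f6 : (D : ℤ) ≤ N := Int.le_of_dvd hN hDN
  have f7 : (q : ℤ) = N + (a : ℤ) := by rw [f4, Int.toNat_of_nonneg f2]
  linarith

lemma class_exists (D : ℕ) (hD : 1 ≤ D) : ∃ a : ℕ, ∀ l : ℕ, l.Prime → l ∣ D →
    ¬ a ≡ 0 [MOD l] ∧ ¬ a ≡ 2 [MOD l] ∧ ¬ a + 4 ≡ 0 [MOD l] ∧ ¬ a + 10 ≡ 0 [MOD l] := by
  obtain ⟨a, ha⟩ := Nat.chineseRemainderOfFinset (fun l => if l = 5 ∨ l = 11 then 3 else 1) (fun l => l) D.primeFactors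
    (fun l hl => (Nat.prime_of_mem_primeFactors hl).ne_zero) (by
      intro l hl l' hl' hne
      exact (Nat.coprime_primes (Nat.prime_of_mem_primeFactors hl) (Nat.prime_of_mem_primeFactors hl')).2 hne)
  refine ⟨a, fun l hl hlD => ?_⟩
  have h1 := ha l (Nat.mem_primeFactors.2 ⟨hl, hlD, by omega⟩)
  by_cases h5 : l = 5
  · subst h5
    simp only [true_or, if_true] at h1
    unfold Nat.ModEq at h1 ⊢
    omega
  by_cases h11 : l = 11
  · subst h11
    simp only [or_true, if_true] at h1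
    unfold Nat.ModEq at h1 ⊢
    omega
  simp only [h5, h11, or_self, if_false] at h1
  have hl1 := hl.one_lt
  refine ⟨fun h => ?_, fun h => ?_, fun h => ?_, fun h => ?_⟩
  · have h2 : 1 ≡ 0 [MOD l] := h1.symm.trans h
    have h3 : l ∣ 1 := (Nat.modEq_zero_iff_dvd).1 h2
    exact hl1.ne' (Nat.dvd_one.1 h3)
  · have h2 : 1 ≡ 2 [MOD l] := h1.symm.trans h
    have h3 : l ∣ 2 - 1 := (Nat.modEq_iff_dvd' (by norm_num)).1 h2
    exact hl1.ne' (Nat.dvd_one.1 (by simpa using h3))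
  · have h2 : 1 + 4 ≡ 0 [MOD l] := (h1.symm.add_right 4).trans h
    have h3 : l ∣ 5 := (Nat.modEq_zero_iff_dvd).1 h2
    exact h5 ((Nat.prime_dvd_prime_iff_eq hl (by norm_num)).1 h3)
  · have h2 : 1 + 10 ≡ 0 [MOD l] := (h1.symm.add_right 10).trans h
    have h3 : l ∣ 11 := (Nat.modEq_zero_iff_dvd).1 h2
    exact h11 ((Nat.prime_dvd_prime_iff_eq hl (by norm_num)).1 h3)

lemma window_ok (n X Y : ℕ) (hX : X = Nat.sqrt (30 * n)) (hY : Y = Nat.sqrt (29 * n)) (hYbig : 1000 ≤ Y) : Y ≤ X ∧ X ≤ 64 * (X - Y) := by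
  have a1 : 30 * n < (X + 1) * (X + 1) := by rw [hX]; exact Nat.lt_succ_sqrt _
  have a2 : Y * Y ≤ 29 * n := by rw [hY]; exact Nat.sqrt_le _
  have a3 : Y ≤ X := by rw [hX, hY]; exact Nat.sqrt_le_sqrt (by omega)
  refine ⟨a3, ?_⟩
  by_contra hcon
  have a4 : 63 * X + 1 ≤ 64 * Y := by omega
  have a5 : 63 * (X + 1) ≤ 64 * Y + 62 := by omega
  have a6 : (63 * (X + 1)) * (63 * (X + 1)) ≤ (64 * Y + 62) * (64 * Y + 62) := Nat.mul_le_mul a5 a5
  nlinarith

lemma adm_low (K : ℕ) : ∃ X₀ : ℕ, ∀ n X : ℕ, X = Nat.sqrt (30 * n) → X₀ ≤ X → ∀ D : Fin 3 → ℕ, ∀ q : ℕ, 1 ≤ q → (∀ j, D j ∣ q) →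
    (q : ℝ) ≤ Real.log X ^ K → (X : ℝ) / (256 * q * Real.log X) ≤ ((Adm D n).card : ℝ) := by
  obtain ⟨X₀, h0⟩ := Pool.Agent.N625.PT.ap_window K 64 (by norm_num)
  refine ⟨max X₀ 2000, fun n X hX hX0 D q hq hDq hqL => ?_⟩
  obtain ⟨Y, hY⟩ : ∃ Y, Y = Nat.sqrt (29 * n) := ⟨_, rfl⟩
  have a0 : X * X ≤ 30 * n := by rw [hX]; exact Nat.sqrt_le _
  have a1 : 29 * n < (Y + 1) * (Y + 1) := by rw [hY]; exact Nat.lt_succ_sqrt _
  have hYbig : 1000 ≤ Y := by
    by_contra hcon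
    have : Y + 1 ≤ 1000 := by omega
    have a3 : (Y + 1) * (Y + 1) ≤ 1000 * 1000 := Nat.mul_le_mul this this
    have a4 : 2000 * 2000 ≤ X * X := Nat.mul_le_mul (by omega) (by omega)
    omega
  obtain ⟨w1, w2⟩ := window_ok n X Y hX hY hYbig
  obtain ⟨a, ha⟩ := class_exists q hq
  have hcop : a.Coprime q := by
    by_contra hcop
    obtain ⟨l, hlp, hla, hlb⟩ := Nat.Prime.not_coprime_iff_dvd.1 hcop
    exact (ha l hlp hlb).1 ((Nat.modEq_zero_iff_dvd).2 hla)
  have h1 := h0 X (by omega) q hq hqL a hcop Y w1 w2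
  have h2 : ((Ioc Y X).filter (fun r : ℕ => r.Prime ∧ r ≡ a [MOD q])).card ≤ (Adm D n).card := by
    apply card_le_card
    intro r hr
    rw [mem_filter, mem_Ioc] at hr
    obtain ⟨⟨g1, g2⟩, g3, g4⟩ := hr
    have e1 : (Y + 1) * (Y + 1) ≤ r * r := Nat.mul_le_mul g1 g1
    have e2 : r * r ≤ X * X := Nat.mul_le_mul g2 g2
    have e3 : r ^ 2 = r * r := sq r
    unfold Adm
    rw [mem_filter, mem_range, e3]
    refine ⟨?_, by omega, by omega, g3, ?_, ?_, ?_⟩
    · have : r ≤ r * r := Nat.le_mul_self r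
      omega
    · by_contra hcop
      obtain ⟨l, hlp, hla, hlb⟩ := Nat.Prime.not_coprime_iff_dvd.1 hcop
      apply (ha l hlp (hlb.trans (hDq 0))).2.1
      have e4 : 2 ≡ r [MOD l] := (Nat.modEq_iff_dvd' (by omega)).2 hla
      exact (g4.of_dvd (hlb.trans (hDq 0))).symm.trans e4.symm
    · by_contra hcop
      obtain ⟨l, hlp, hla, hlb⟩ := Nat.Prime.not_coprime_iff_dvd.1 hcop
      apply (ha l hlp (hlb.trans (hDq 1))).2.2.1
      exact ((g4.of_dvd (hlb.trans (hDq 1))).symm.add_right 4).trans ((Nat.modEq_zero_iff_dvd).2 hla)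
    · by_contra hcop
      obtain ⟨l, hlp, hla, hlb⟩ := Nat.Prime.not_coprime_iff_dvd.1 hcop
      apply (ha l hlp (hlb.trans (hDq 2))).2.2.2
      exact ((g4.of_dvd (hlb.trans (hDq 2))).symm.add_right 10).trans ((Nat.modEq_zero_iff_dvd).2 hla)
  have h3 : (((Ioc Y X).filter (fun r : ℕ => r.Prime ∧ r ≡ a [MOD q])).card : ℝ) ≤ ((Adm D n).card : ℝ) := by exact_mod_cast h2
  refine le_trans (le_of_eq ?_) (h1.trans h3)
  congr 1
  push_cast
  ring

/-- the law itself -/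
theorem main : ∀ b L : ℕ, 2 ≤ b → ∀ η : ℝ, 0 < η → ∀ (κ : Fin 3 → ℤ), (∀ j, κ j ≠ 0) →
    ∀ (B J C K₁ : ℕ) (θ : ℝ), 0 < θ → ∀ ε : ℝ, 0 < ε → ε ≤ 1 → ∃ d₀ : ℕ, ∀ d : ℕ, d₀ ≤ d →
    ∀ μ : Fin 3 → ℕ → ℝ, (∀ j, DC b L η d (μ j)) →
    ∀ y : ℕ, θ * Real.log d ≤ y → y ≤ K₁ * Real.log d →
    ∀ c : Fin 3 → ℤ, (∀ j, |c j| ≤ B * (b : ℤ) ^ d) → ∀ h : Fin 3 → ℕ, (∀ j, 1 ≤ h j ∧ h j ≤ d ^ J) →
    ∀ n : ℕ, ¬ 4 ∣ n → b ^ (2 * d) ≤ n * d ^ C → n ≤ b ^ (2 * d) * d ^ C →
      √(n : ℝ) ≤ ((Adm (fun j => primorial y * h j) n).card : ℝ) * (d : ℝ) ^ (6 * K₁ + 3 * J + 3) ∧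
      ∑ v ∈ Fintype.piFinset (fun _ : Fin 3 => range (b ^ d)), (if (∀ j, 0 < Nv y (h j) (c j) (κ j) (v j)) →
        |((Good n (fun j => Nv y (h j) (c j) (κ j) (v j))).card : ℝ) -
            (Adm (fun j => primorial y * h j) n).card / (V y * (d * Real.log b)) ^ 3| ≤
          ε * ((Adm (fun j => primorial y * h j) n).card / (V y * (d * Real.log b)) ^ 3) then 0 else ∏ j, μ j (v j)) ≤ ε := by
  classical
  intro b L hb η hη κ hκ B J C K₁ θ hθ ε hε hε1
  have hcls := dc_rcls b L hb η hη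
  obtain ⟨A, hA⟩ : ∃ A, A = 2 * K₁ + J := ⟨_, rfl⟩
  obtain ⟨k₀, h0⟩ := Pool.Agent.Run7.h672.XC.tuple_law hcls 3 κ hκ B J
    (3 * A + 4) (C + 2) K₁ θ hθ ε hε hε1
  obtain ⟨n0, hn0⟩ := adm_low (3 * A + 1)
  obtain ⟨k₁, h1⟩ := Pool.Agent.N625.PT.X_large b (C + 1) hb
  obtain ⟨k₂, h2⟩ := Pool.Agent.N625.PT.log_X b (C + 1) hb
  obtain ⟨k₃, h3⟩ := Pool.Agent.N625.PT.log_low b (C + 1) hb
  refine ⟨max (max k₀ k₁) (max (max k₂ k₃) (max 256 (max n0 (4 ^ (3 * A + 1))))), fun d hd μ hμ y hy1 hy2 c hc h hh n hn4 hx1 hx2 => ?_⟩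
  have b4 : 256 ≤ d := by omega
  have b5 : 4 ^ (3 * A + 1) ≤ d := by omega
  have hkr : (256 : ℝ) ≤ d := by exact_mod_cast b4
  have hk0 : (0 : ℝ) < d := by linarith
  obtain ⟨X, hX⟩ : ∃ X, X = Nat.sqrt (30 * n) := ⟨_, rfl⟩
  have a0 : X * X ≤ 30 * n := by rw [hX]; exact Nat.sqrt_le _
  have a1 : 30 * n < (X + 1) * (X + 1) := by rw [hX]; exact Nat.lt_succ_sqrt _
  have hd1 : 1 ≤ d ^ C := Nat.one_le_pow _ _ (by omega)
  have hbd : 1 ≤ b ^ d := Nat.one_le_pow _ _ (by omega)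
  have hn1 : 1 ≤ n := by
    rcases Nat.eq_zero_or_pos n with h | h
    · rw [h] at hn4
      exact absurd (dvd_zero 4) hn4
    · exact h
  have hX1' : b ^ d ≤ (X + 1) * d ^ C := by
    by_contra hcon
    have e1 : (X + 1) * d ^ C * ((X + 1) * d ^ C) < b ^ d * b ^ d := Nat.mul_lt_mul'' (by omega) (by omega)
    have e2 : b ^ (2 * d) = b ^ d * b ^ d := by rw [two_mul, pow_add]
    have e3 : n * d ^ C ≤ (X + 1) * d ^ C * ((X + 1) * d ^ C) := by
      calc n * d ^ C ≤ ((X + 1) * (X + 1)) * d ^ C := Nat.mul_le_mul_right _ (by omega)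
        _ ≤ ((X + 1) * (X + 1)) * (d ^ C * d ^ C) := Nat.mul_le_mul_left _ (Nat.le_mul_of_pos_left _ (by omega))
        _ = _ := by ring
    omega
  have hXpos : 1 ≤ X := by
    by_contra hcon
    have : X = 0 := by omega
    rw [this] at a1
    omega
  have hx1b : b ^ d ≤ X * d ^ (C + 1) := by
    calc b ^ d ≤ (X + 1) * d ^ C := hX1'
      _ ≤ (X * d) * d ^ C := Nat.mul_le_mul_right _ (by nlinarith)
      _ = _ := by rw [pow_succ]; ring
  have hx2b : X ≤ b ^ d * d ^ (C + 1) := by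
    by_contra hcon
    have e1 : b ^ d * d ^ (C + 1) * (b ^ d * d ^ (C + 1)) < X * X := Nat.mul_lt_mul'' (by omega) (by omega)
    have e2 : b ^ (2 * d) = b ^ d * b ^ d := by rw [two_mul, pow_add]
    have e3 : 30 * n ≤ b ^ d * d ^ (C + 1) * (b ^ d * d ^ (C + 1)) := by
      calc 30 * n ≤ (d * d) * (b ^ (2 * d) * d ^ C) := Nat.mul_le_mul (by nlinarith) hx2
        _ = (b ^ d * b ^ d) * (d * d * d ^ C) := by rw [e2]; ring
        _ ≤ (b ^ d * b ^ d) * (d * d * d ^ C * d ^ C) := Nat.mul_le_mul_left _ (Nat.le_mul_of_pos_right _ (by omega))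
        _ = _ := by rw [pow_succ]; ring
    omega
  have hkx := h1 d (by omega) X hx1b
  have hlx := h2 d (by omega) X hx2b
  have hll := h3 d (by omega) X hx1b
  have hln : 0 ≤ Real.log X := Real.log_natCast_nonneg X
  have hX00 : (0 : ℝ) ≤ X := Nat.cast_nonneg X
  have hDj : ∀ j, 1 ≤ primorial y * h j ∧ primorial y * h j ≤ d ^ A := by
    intro j
    refine ⟨Nat.mul_pos (primorial_pos y) (hh j).1, ?_⟩
    rw [hA]
    exact Pool.Agent.N625.PT.mult_small K₁ J d y (h j) (by omega) hy2 (hh j).2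
  obtain ⟨q, hq⟩ : ∃ q, q = (primorial y * h 0) * (primorial y * h 1) * (primorial y * h 2) := ⟨_, rfl⟩
  have hq1 : 1 ≤ q := by
    rw [hq]
    exact Nat.mul_pos (Nat.mul_pos (hDj 0).1 (hDj 1).1) (hDj 2).1
  have hDq : ∀ j, primorial y * h j ∣ q := by
    intro j
    rw [hq]
    fin_cases j
    · exact (dvd_mul_right _ _).mul_right _
    · exact (dvd_mul_left _ _).mul_right _
    · exact dvd_mul_left _ _
  have hqk : q ≤ d ^ (3 * A) := by
    rw [hq]
    calc (primorial y * h 0) * (primorial y * h 1) * (primorial y * h 2) ≤ d ^ A * d ^ A * d ^ A :=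
          Nat.mul_le_mul (Nat.mul_le_mul (hDj 0).2 (hDj 1).2) (hDj 2).2
      _ = _ := by ring
  have hqkr : (q : ℝ) ≤ (d : ℝ) ^ (3 * A) := by exact_mod_cast hqk
  have hqL : (q : ℝ) ≤ Real.log X ^ (3 * A + 1) := by
    refine hqkr.trans ?_
    have g2 : ((d : ℝ) / 4) ^ (3 * A + 1) ≤ Real.log X ^ (3 * A + 1) := pow_le_pow_left₀ (by positivity) hll _
    refine le_trans ?_ g2
    rw [div_pow, le_div_iff₀ (by positivity), pow_succ (d : ℝ)]
    have g3 : ((4 : ℝ)) ^ (3 * A + 1) ≤ d := by exact_mod_cast b5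
    exact mul_le_mul_of_nonneg_left g3 (by positivity)
  have hlow := hn0 n X hX (by omega) (fun j => primorial y * h j) q hq1 hDq hqL
  have hq0 : (0 : ℝ) < q := by exact_mod_cast (by omega : 0 < q)
  have hl0 : 0 < Real.log X := by
    have : 0 < (d : ℝ) / 4 := by positivity
    linarith
  obtain ⟨S, hS⟩ : ∃ S, S = Adm (fun j => primorial y * h j) n := ⟨_, rfl⟩
  rw [← hS] at hlow
  have hden : (X : ℝ) ≤ S.card * (d : ℝ) ^ (3 * A + 3) := by
    rw [div_le_iff₀ (by positivity)] at hlow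
    calc (X : ℝ) ≤ S.card * (256 * q * Real.log X) := hlow
      _ ≤ S.card * (d * (d : ℝ) ^ (3 * A) * (d : ℝ) ^ 2) := by gcongr
      _ = _ := by ring
  have hnX : √(n : ℝ) ≤ X := by
    rw [Real.sqrt_le_left hX00]
    have : n ≤ X ^ 2 := by nlinarith
    exact_mod_cast this
  refine ⟨by
    rw [← hS]
    refine (hnX.trans hden).trans (le_of_eq ?_)
    rw [hA]
    congr 2
    ring, ?_⟩
  have hS1 : ∀ p ∈ S, 29 * n ≤ p ^ 2 ∧ p ^ 2 ≤ 30 * n ∧ p.Prime ∧
    (p - 2).Coprime (primorial y * h 0) ∧ (p + 4).Coprime (primorial y * h 1) ∧ (p + 10).Coprime (primorial y * h 2) := by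
    intro p hp
    rw [hS] at hp
    unfold Adm at hp
    rw [mem_filter] at hp
    exact hp.2
  have hple : ∀ p : ℕ, p ^ 2 ≤ 30 * n → p ≤ X := by
    intro p hp
    rw [hX]
    exact Nat.le_sqrt'.2 hp
  have hpbig : ∀ p : ℕ, 29 * n ≤ p ^ 2 → 11 ≤ p := by
    intro p hp
    by_contra hcon
    have e1 : p * p ≤ 10 * 10 := Nat.mul_le_mul (by omega) (by omega)
    have e2 : 100 * 100 ≤ X * X := Nat.mul_le_mul (by omega) (by omega)
    rw [sq] at hp
    omega
  obtain ⟨f, hf⟩ : ∃ f : Fin 3 → ℕ → ℕ, f = ![fun p => p - 2, fun p => p + 4, fun p => p + 10] := ⟨_, rfl⟩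
  have hf0 : ∀ p, f 0 p = p - 2 := fun p => by rw [hf]; rfl
  have hf1 : ∀ p, f 1 p = p + 4 := fun p => by rw [hf]; rfl
  have hf2 : ∀ p, f 2 p = p + 10 := fun p => by rw [hf]; rfl
  have h5 := h0 d (by omega) μ hμ y hy1 hy2 c hc h hh (2 * X) (by
      refine hx1b.trans ?_
      exact Nat.mul_le_mul (by omega) (Nat.pow_le_pow_right (by omega) (by omega))) (by
      calc 2 * X ≤ d * (b ^ d * d ^ (C + 1)) := Nat.mul_le_mul (by omega) hx2b
        _ = b ^ d * d ^ (C + 2) := by rw [pow_succ d (C + 1)]; ring) S f (by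
      intro j p hp r hr hpr
      have e1 := hpbig p (hS1 p (by exact_mod_cast hp)).1
      have e2 := hpbig r (hS1 r (by exact_mod_cast hr)).1
      fin_cases j
      · have : f 0 p = f 0 r := hpr
        rw [hf0, hf0] at this
        omega
      · have : f 1 p = f 1 r := hpr
        rw [hf1, hf1] at this
        omega
      · have : f 2 p = f 2 r := hpr
        rw [hf2, hf2] at this
        omega) (by
      intro j p hp
      obtain ⟨g1, g2, g3, g4, g5, g6⟩ := hS1 p hp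
      have e1 := hpbig p g1
      have e2 := hple p g2
      fin_cases j
      · show 1 ≤ f 0 p ∧ f 0 p ≤ 2 * X ∧ (f 0 p).Coprime (primorial y * h 0)
        rw [hf0]
        exact ⟨by omega, by omega, g4⟩
      · show 1 ≤ f 1 p ∧ f 1 p ≤ 2 * X ∧ (f 1 p).Coprime (primorial y * h 1)
        rw [hf1]
        exact ⟨by omega, by omega, g5⟩
      · show 1 ≤ f 2 p ∧ f 2 p ≤ 2 * X ∧ (f 2 p).Coprime (primorial y * h 2)
        rw [hf2]
        exact ⟨by omega, by omega, g6⟩) (by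
      push_cast
      calc (2 : ℝ) * X ≤ d * (S.card * (d : ℝ) ^ (3 * A + 3)) := mul_le_mul (by linarith) hden hX00 hk0.le
        _ = _ := by ring) (fun _ => 1) (fun _ => Or.inl rfl)
  refine le_trans (sum_le_sum fun v _ => ?_) h5
  have hm0 : 0 ≤ ∏ j, μ j (v j) := prod_nonneg fun j _ => DC_nonneg (hμ j) _
  rw [← hS]
  by_cases hgood : (∀ j, 0 < Nv y (h j) (c j) (κ j) (v j)) →
        |((Good n (fun j => Nv y (h j) (c j) (κ j) (v j))).card : ℝ) - S.card / (V y * (d * Real.log b)) ^ 3| ≤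
          ε * (S.card / (V y * (d * Real.log b)) ^ 3)
  · rw [if_pos hgood]
    split_ifs
    · exact le_rfl
    · exact hm0
  · rw [if_neg hgood, if_neg]
    intro hall
    apply hgood
    intro hpos
    have hNm : ∀ j, Pool.Agent.N625.PT.Nm y (h j) (c j) (κ j) (v j) = Nv y (h j) (c j) (κ j) (v j) := fun _ => rfl
    have h6 := hall (by
      intro j i hi
      have : (0 : ℤ) ≤ (f j i : ℤ) := Int.natCast_nonneg _
      rw [hNm]
      have := hpos j
      linarith) 3 le_rfl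
    have hset : Good n (fun j => Nv y (h j) (c j) (κ j) (v j)) = S.filter (fun i => ∀ j : Fin 3, (j : ℕ) < 3 →
        (Pool.Agent.N625.PT.Nm y (h j) (c j) (κ j) (v j) + 1 * (f j i : ℕ)).toNat.Prime) := by
      have hDN : ∀ j, ((primorial y * h j : ℕ) : ℤ) ∣ Nv y (h j) (c j) (κ j) (v j) := fun j => by
        unfold Nv
        exact dvd_mul_right _ _
      ext p
      unfold Good
      rw [mem_filter, mem_filter, mem_range]
      have e0 : 11 ≤ p → (p : ℤ) - 2 + Nv y (h 0) (c 0) (κ 0) (v 0) = Nv y (h 0) (c 0) (κ 0) (v 0) + ((p - 2 : ℕ) : ℤ) := by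
        intro hp
        rw [Nat.cast_sub (by omega)]
        push_cast
        ring
      have e1 : (p : ℤ) + 4 + Nv y (h 1) (c 1) (κ 1) (v 1) = Nv y (h 1) (c 1) (κ 1) (v 1) + ((p + 4 : ℕ) : ℤ) := by
        push_cast
        ring
      have e2 : (p : ℤ) + 10 + Nv y (h 2) (c 2) (κ 2) (v 2) = Nv y (h 2) (c 2) (κ 2) (v 2) + ((p + 10 : ℕ) : ℤ) := by
        push_cast
        ring
      constructor
      · rintro ⟨g0, g1, g2, g3, g4, g5, g6, g7⟩
        have hp11 := hpbig p g1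
        simp only at g5 g6 g7
        rw [e0 hp11] at g5
        rw [e1] at g6
        rw [e2] at g7
        refine ⟨?_, ?_⟩
        · rw [hS]
          unfold Adm
          rw [mem_filter, mem_range]
          exact ⟨g0, g1, g2, g3, cop_of (by omega) (hDj 0).1 (hpos 0) (hDN 0) g5, cop_of (by omega) (hDj 1).1 (hpos 1) (hDN 1) g6,
            cop_of (by omega) (hDj 2).1 (hpos 2) (hDN 2) g7⟩
        · intro j _
          rw [hNm, one_mul]
          fin_cases j
          · show (Nv y (h 0) (c 0) (κ 0) (v 0) + ((f 0 p : ℕ) : ℤ)).toNat.Prime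
            rw [hf0]
            exact g5
          · show (Nv y (h 1) (c 1) (κ 1) (v 1) + ((f 1 p : ℕ) : ℤ)).toNat.Prime
            rw [hf1]
            exact g6
          · show (Nv y (h 2) (c 2) (κ 2) (v 2) + ((f 2 p : ℕ) : ℤ)).toNat.Prime
            rw [hf2]
            exact g7
      · rintro ⟨g0, g1⟩
        obtain ⟨q1, q2, q3, q4, q5, q6⟩ := hS1 p g0
        have hp11 := hpbig p q1
        have r0 := g1 0 (by norm_num)
        have r1 := g1 1 (by norm_num)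
        have r2 := g1 2 (by norm_num)
        rw [hNm, one_mul, hf0] at r0
        rw [hNm, one_mul, hf1] at r1
        rw [hNm, one_mul, hf2] at r2
        have hcop30 : Nat.Coprime p 30 := by
          rw [Nat.Prime.coprime_iff_not_dvd q3]
          intro hdvd
          have hpr : p ∣ 2 * (3 * 5) := hdvd
          rcases (Nat.Prime.dvd_mul q3).1 hpr with h' | h'
          · have := Nat.le_of_dvd (by norm_num) h'
            omega
          · rcases (Nat.Prime.dvd_mul q3).1 h' with h'' | h''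
            · have := Nat.le_of_dvd (by norm_num) h''
              omega
            · have := Nat.le_of_dvd (by norm_num) h''
              omega
        obtain ⟨x, y', z, w, g8, g9⟩ := Pool.Agent.H141R2.FS.rep hn4 hcop30 q1 q2
        refine ⟨?_, q1, q2, q3, ⟨x, y', z, w, g8, g9.symm⟩, ?_, ?_, ?_⟩
        · have : p ≤ p ^ 2 := Nat.le_self_pow (by norm_num) p
          omega
        · simp only
          rw [e0 hp11]
          exact r0
        · simp only
          rw [e1]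
          exact r1
        · simp only
          rw [e2]
          exact r2
    rw [hset]
    exact h6

/-- Let `b ≥ 2`, `L` and `η > 0`, and let `v j < b ^ d`, `j < 3`, be independent random integers with `d` determinantal digits
in base `b` (`DetDigits b L η 0 d (μ j)`), let `y` be between `θ log d` and `K₁ log d` (`θ > 0` is arbitrary), `M` the
product of the primes `≤ y`, `|c j| ≤ B b ^ d`, `1 ≤ h j ≤ d ^ J`, `N_j = M h_j (c_j + κ_j v_j)`, and let `n` be ANY integer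
which is not divisible by `4`, with `b ^ (2 d) ≤ n d ^ C`, `n ≤ b ^ (2 d) d ^ C`. Let `A` be the set of the primes `p` with
`29 n ≤ p ^ 2 ≤ 30 n` such that `p - 2`, `p + 4`, `p + 10` are prime to `M h_0`, `M h_1`, `M h_2`. It has at least
`√n / d ^ (6 K₁ + 3 J + 3)` elements. Up to a probability of at most `ε`, if all `N_j > 0`, then the number of ALL primes `p`
with `29 n ≤ p ^ 2 ≤ 30 n` such that `n = x² + y² + z² + w²` and `p = x + 2 y + 5 z` for some natural numbers, and such that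
`p - 2 + N_0`, `p + 4 + N_1` and `p + 10 + N_2` are prime, differs from `E = #A / (V y log b ^ d) ^ 3` by at most `ε E`. -/
theorem result : ∀ b L : ℕ, 2 ≤ b → ∀ η : ℝ, 0 < η → ∀ (κ : Fin 3 → ℤ), (∀ j, κ j ≠ 0) →
    ∀ (B J C K₁ : ℕ) (θ : ℝ), 0 < θ → ∀ ε : ℝ, 0 < ε → ε ≤ 1 → ∃ d₀ : ℕ, ∀ d : ℕ, d₀ ≤ d →
    ∀ μ : Fin 3 → ℕ → ℝ, (∀ j, DetDigits b L η 0 d (μ j)) →
    ∀ y : ℕ, θ * Real.log d ≤ y → y ≤ K₁ * Real.log d →
    ∀ c : Fin 3 → ℤ, (∀ j, |c j| ≤ B * (b : ℤ) ^ d) → ∀ h : Fin 3 → ℕ, (∀ j, 1 ≤ h j ∧ h j ≤ d ^ J) →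
    ∀ n : ℕ, ¬ 4 ∣ n → b ^ (2 * d) ≤ n * d ^ C → n ≤ b ^ (2 * d) * d ^ C →
      √(n : ℝ) ≤ ((Adm (fun j => primorial y * h j) n).card : ℝ) * (d : ℝ) ^ (6 * K₁ + 3 * J + 3) ∧
      ∑ v ∈ Fintype.piFinset (fun _ : Fin 3 => range (b ^ d)), (if (∀ j, 0 < Nv y (h j) (c j) (κ j) (v j)) →
        |((Good n (fun j => Nv y (h j) (c j) (κ j) (v j))).card : ℝ) -
            (Adm (fun j => primorial y * h j) n).card / (V y * (d * Real.log b)) ^ 3| ≤
          ε * ((Adm (fun j => primorial y * h j) n).card / (V y * (d * Real.log b)) ^ 3) then 0 else ∏ j, μ j (v j)) ≤ ε := by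
  intro b L hb η hη κ hκ B J C K₁ θ hθ ε hε hε1
  obtain ⟨d₀, h⟩ := main b L hb η hη κ hκ B J C K₁ θ hθ ε hε hε1
  refine ⟨d₀, fun d hd p hp y hy1 hy2 c hc m hm n hn4 hx1 hx2 => ?_⟩
  have hfam : ∀ j, ∃ ν : ℕ → ℝ, DC b L η d ν ∧ ∀ v, 0 ≤ p j v ∧ p j v ≤ (d : ℝ) ^ 0 * ν v := fun j => fam_dc (hp j)
  choose ν hν hle using hfam
  obtain ⟨h1, h2⟩ := h d hd ν hν y hy1 hy2 c hc m hm n hn4 hx1 hx2
  refine ⟨h1, le_trans (sum_le_sum fun v _ => ?_) h2⟩
  split_ifs
  · exact le_rfl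
  · refine prod_le_prod (fun j _ => (hle j (v j)).1) fun j _ => ?_
    have h3 := (hle j (v j)).2
    rwa [pow_zero, one_mul] at h3

end Pool.Agent.Results.MP_40574a_nt.DeterminantalQuadruples
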