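import Pool.Agent.N625.PT.X20
import Pool.Agent.H141R2.FS.Main1
import Pool.Agent.Run7.h672.XC.X18
import Pool.Agent.Run7.h844.RP.PwR2

/-!
# EVERY large `n`, `4 ∤ n`: four squares with `p = x + 2 y + 5 z`, `p - 2 + N₀`, `p + 4 + N₁` and `p + 10 + N₂` prime, for
multiples of the values of generalised polynomials at primes

Method: exponential sums over primes with the phase of a generalised polynomial: derivative bounds uniform in the
coefficients, van der Corput differencing of all orders, bilinear sums, Vaughan's identity (after `Pool.Agent.H895R3.NK`,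
`Pool.Agent.H373R2.T7`), with a power saving at all frequencies up to a power, and a discrete Fejér kernel for the passage to
the integer parts (library `Pool.Agent.Run7.h844.RP`). With this input the sieve and the circle method for classes of laws with
small exponential sums (`Pool.Agent.N625.PT`, `Pool.Agent.Run7.h672.XC`) go through.
-/

set_option autoImplicit false

open Finset

namespace Pool.Agent.Results.MP_40574a_nt.ValuesAtPrimes

/-- The generalised polynomial `∑ a x * t ^ x`, `x ∈ F`, with real exponents and coefficients. -/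
noncomputable def genPoly (F : Finset ℝ) (a : ℝ → ℝ) (t : ℝ) : ℝ := ∑ x ∈ F, a x * t ^ x

/-- `c` is the largest exponent; it is positive and not an integer, and its coefficient is not zero. -/
def Leading (F : Finset ℝ) (a : ℝ → ℝ) (c : ℝ) : Prop :=
  c ∈ F ∧ (∀ x ∈ F, x ≤ c) ∧ 0 < c ∧ (∀ m : ℕ, c ≠ m) ∧ a c ≠ 0

/-- the product of `1 - 1/q` over the primes `q ≤ y` -/
noncomputable def V (y : ℕ) : ℝ := ∏ q ∈ (Icc 1 y).filter Nat.Prime, (1 - 1 / (q : ℝ))

/-- the multiple of the product of the primes `≤ y` given by the integers `h` and `w` -/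
def Nw (y h : ℕ) (w : ℤ) : ℤ := ((primorial y * h : ℕ) : ℤ) * w

/-- the multiple of the product of the primes `≤ y` given by the integers `h` and `c + κ v` -/
def Nv (y h : ℕ) (c κ : ℤ) (v : ℕ) : ℤ := ((primorial y * h : ℕ) : ℤ) * (c + κ * v)

/-- the primes `p` with `29 n ≤ p ^ 2 ≤ 30 n` such that `p - 2`, `p + 4`, `p + 10` are prime to `D 0`, `D 1`, `D 2` -/
def Adm (D : Fin 3 → ℕ) (n : ℕ) : Finset ℕ :=
  (range (30 * n + 1)).filter (fun p : ℕ => 29 * n ≤ p ^ 2 ∧ p ^ 2 ≤ 30 * n ∧ p.Prime ∧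
    (p - 2).Coprime (D 0) ∧ (p + 4).Coprime (D 1) ∧ (p + 10).Coprime (D 2))

open Classical in
/-- the primes `p` with `29 n ≤ p ^ 2 ≤ 30 n` which have the form `p = x + 2 y + 5 z` for a representation
`n = x² + y² + z² + w²`, and for which `p - 2 + N 0`, `p + 4 + N 1` and `p + 10 + N 2` are prime -/
noncomputable def Good (n : ℕ) (N : Fin 3 → ℤ) : Finset ℕ :=
  (range (30 * n + 1)).filter (fun p : ℕ => 29 * n ≤ p ^ 2 ∧ p ^ 2 ≤ 30 * n ∧ p.Prime ∧
    (∃ x y z w : ℕ, n = x ^ 2 + y ^ 2 + z ^ 2 + w ^ 2 ∧ p = x + 2 * y + 5 * z) ∧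
    ((p : ℤ) - 2 + N 0).toNat.Prime ∧ ((p : ℤ) + 4 + N 1).toNat.Prime ∧ ((p : ℤ) + 10 + N 2).toNat.Prime)

lemma cop_of {a D : ℕ} {N : ℤ} (ha : 1 ≤ a) (hD : 1 ≤ D) (hN : 0 < N) (hDN : (D : ℤ) ∣ N) (hp : (N + (a : ℤ)).toNat.Prime) :
    a.Coprime D := by
  by_contra hcop
  obtain ⟨q, hqp, hqa, hqb⟩ := Nat.Prime.not_coprime_iff_dvd.1 hcop
  have f1 : (q : ℤ) ∣ N + (a : ℤ) := dvd_add ((by exact_mod_cast hqb : (q : ℤ) ∣ (D : ℤ)).trans hDN) (by exact_mod_cast hqa)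
  have f0 : (1 : ℤ) ≤ a := by exact_mod_cast ha
  have f2 : (0 : ℤ) ≤ N + (a : ℤ) := by linarith
  have f3 : q ∣ (N + (a : ℤ)).toNat := by
    rw [← Int.natCast_dvd_natCast, Int.toNat_of_nonneg f2]
    exact f1
  have f4 := (Nat.prime_dvd_prime_iff_eq hqp hp).1 f3
  have f5 : (q : ℤ) ≤ D := by exact_mod_cast Nat.le_of_dvd (by omega) hqb
  have f6 : (D : ℤ) ≤ N := Int.le_of_dvd hN hDN
  have f7 : (q : ℤ) = N + (a : ℤ) := by rw [f4, Int.toNat_of_nonneg f2]
  linarith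

lemma class_exists (D : ℕ) (hD : 1 ≤ D) : ∃ a : ℕ, ∀ l : ℕ, l.Prime → l ∣ D →
    ¬ a ≡ 0 [MOD l] ∧ ¬ a ≡ 2 [MOD l] ∧ ¬ a + 4 ≡ 0 [MOD l] ∧ ¬ a + 10 ≡ 0 [MOD l] := by
  obtain ⟨a, ha⟩ := Nat.chineseRemainderOfFinset (fun l => if l = 5 ∨ l = 11 then 3 else 1) (fun l => l) D.primeFactors
    (fun l hl => (Nat.prime_of_mem_primeFactors hl).ne_zero) (by
      intro l hl l' hl' hne
      exact (Nat.coprime_primes (Nat.prime_of_mem_primeFactors hl) (Nat.prime_of_mem_primeFactors hl')).2 hne)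
  refine ⟨a, fun l hl hlD => ?_⟩
  have h1 := ha l (Nat.mem_primeFactors.2 ⟨hl, hlD, by omega⟩)
  by_cases h5 : l = 5
  · subst h5
    simp only [true_or, if_true] at h1
    unfold Nat.ModEq at h1 ⊢
    omega
  by_cases h11 : l = 11
  · subst h11
    simp only [or_true, if_true] at h1
    unfold Nat.ModEq at h1 ⊢
    omega
  simp only [h5, h11, or_self, if_false] at h1
  have hl1 := hl.one_lt
  refine ⟨fun h => ?_, fun h => ?_, fun h => ?_, fun h => ?_⟩
  · have h2 : 1 ≡ 0 [MOD l] := h1.symm.trans h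
    have h3 : l ∣ 1 := (Nat.modEq_zero_iff_dvd).1 h2
    exact hl1.ne' (Nat.dvd_one.1 h3)
  · have h2 : 1 ≡ 2 [MOD l] := h1.symm.trans h
    have h3 : l ∣ 2 - 1 := (Nat.modEq_iff_dvd' (by norm_num)).1 h2
    exact hl1.ne' (Nat.dvd_one.1 (by simpa using h3))
  · have h2 : 1 + 4 ≡ 0 [MOD l] := (h1.symm.add_right 4).trans h
    have h3 : l ∣ 5 := (Nat.modEq_zero_iff_dvd).1 h2
    exact h5 ((Nat.prime_dvd_prime_iff_eq hl (by norm_num)).1 h3)
  · have h2 : 1 + 10 ≡ 0 [MOD l] := (h1.symm.add_right 10).trans h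
    have h3 : l ∣ 11 := (Nat.modEq_zero_iff_dvd).1 h2
    exact h11 ((Nat.prime_dvd_prime_iff_eq hl (by norm_num)).1 h3)

lemma window_ok (n X Y : ℕ) (hX : X = Nat.sqrt (30 * n)) (hY : Y = Nat.sqrt (29 * n)) (hYbig : 1000 ≤ Y) : Y ≤ X ∧ X ≤ 64 * (X - Y) := by
  have a1 : 30 * n < (X + 1) * (X + 1) := by rw [hX]; exact Nat.lt_succ_sqrt _
  have a2 : Y * Y ≤ 29 * n := by rw [hY]; exact Nat.sqrt_le _
  have a3 : Y ≤ X := by rw [hX, hY]; exact Nat.sqrt_le_sqrt (by omega)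
  refine ⟨a3, ?_⟩
  by_contra hcon
  have a4 : 63 * X + 1 ≤ 64 * Y := by omega
  have a5 : 63 * (X + 1) ≤ 64 * Y + 62 := by omega
  have a6 : (63 * (X + 1)) * (63 * (X + 1)) ≤ (64 * Y + 62) * (64 * Y + 62) := Nat.mul_le_mul a5 a5
  nlinarith

lemma adm_low (K : ℕ) : ∃ X₀ : ℕ, ∀ n X : ℕ, X = Nat.sqrt (30 * n) → X₀ ≤ X → ∀ D : Fin 3 → ℕ, ∀ q : ℕ, 1 ≤ q → (∀ j, D j ∣ q) →
    (q : ℝ) ≤ Real.log X ^ K → (X : ℝ) / (256 * q * Real.log X) ≤ ((Adm D n).card : ℝ) := by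
  obtain ⟨X₀, h0⟩ := Pool.Agent.N625.PT.ap_window K 64 (by norm_num)
  refine ⟨max X₀ 2000, fun n X hX hX0 D q hq hDq hqL => ?_⟩
  obtain ⟨Y, hY⟩ : ∃ Y, Y = Nat.sqrt (29 * n) := ⟨_, rfl⟩
  have a0 : X * X ≤ 30 * n := by rw [hX]; exact Nat.sqrt_le _
  have a1 : 29 * n < (Y + 1) * (Y + 1) := by rw [hY]; exact Nat.lt_succ_sqrt _
  have hYbig : 1000 ≤ Y := by
    by_contra hcon
    have : Y + 1 ≤ 1000 := by omega
    have a3 : (Y + 1) * (Y + 1) ≤ 1000 * 1000 := Nat.mul_le_mul this this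
    have a4 : 2000 * 2000 ≤ X * X := Nat.mul_le_mul (by omega) (by omega)
    omega
  obtain ⟨w1, w2⟩ := window_ok n X Y hX hY hYbig
  obtain ⟨a, ha⟩ := class_exists q hq
  have hcop : a.Coprime q := by
    by_contra hcop
    obtain ⟨l, hlp, hla, hlb⟩ := Nat.Prime.not_coprime_iff_dvd.1 hcop
    exact (ha l hlp hlb).1 ((Nat.modEq_zero_iff_dvd).2 hla)
  have h1 := h0 X (by omega) q hq hqL a hcop Y w1 w2
  have h2 : ((Ioc Y X).filter (fun r : ℕ => r.Prime ∧ r ≡ a [MOD q])).card ≤ (Adm D n).card := by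
    apply card_le_card
    intro r hr
    rw [mem_filter, mem_Ioc] at hr
    obtain ⟨⟨g1, g2⟩, g3, g4⟩ := hr
    have e1 : (Y + 1) * (Y + 1) ≤ r * r := Nat.mul_le_mul g1 g1
    have e2 : r * r ≤ X * X := Nat.mul_le_mul g2 g2
    have e3 : r ^ 2 = r * r := sq r
    unfold Adm
    rw [mem_filter, mem_range, e3]
    refine ⟨?_, by omega, by omega, g3, ?_, ?_, ?_⟩
    · have : r ≤ r * r := Nat.le_mul_self r
      omega
    · by_contra hcop
      obtain ⟨l, hlp, hla, hlb⟩ := Nat.Prime.not_coprime_iff_dvd.1 hcop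
      apply (ha l hlp (hlb.trans (hDq 0))).2.1
      have e4 : 2 ≡ r [MOD l] := (Nat.modEq_iff_dvd' (by omega)).2 hla
      exact (g4.of_dvd (hlb.trans (hDq 0))).symm.trans e4.symm
    · by_contra hcop
      obtain ⟨l, hlp, hla, hlb⟩ := Nat.Prime.not_coprime_iff_dvd.1 hcop
      apply (ha l hlp (hlb.trans (hDq 1))).2.2.1
      exact ((g4.of_dvd (hlb.trans (hDq 1))).symm.add_right 4).trans ((Nat.modEq_zero_iff_dvd).2 hla)
    · by_contra hcop
      obtain ⟨l, hlp, hla, hlb⟩ := Nat.Prime.not_coprime_iff_dvd.1 hcop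
      apply (ha l hlp (hlb.trans (hDq 2))).2.2.2
      exact ((g4.of_dvd (hlb.trans (hDq 2))).symm.add_right 10).trans ((Nat.modEq_zero_iff_dvd).2 hla)
  have h3 : (((Ioc Y X).filter (fun r : ℕ => r.Prime ∧ r ≡ a [MOD q])).card : ℝ) ≤ ((Adm D n).card : ℝ) := by exact_mod_cast h2
  refine le_trans (le_of_eq ?_) (h1.trans h3)
  congr 1
  push_cast
  ring

set_option maxHeartbeats 4000000 in
theorem core {b L T : ℕ} {𝒞 : ℕ → (ℕ → ℝ) → Prop} (hcls : Pool.Agent.Run7.h672.XC.RCls b L T 𝒞) : ∀ (κ : Fin 3 → ℤ), (∀ j, κ j ≠ 0) →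
    ∀ (B J C K₁ : ℕ) (θ : ℝ), 0 < θ → ∀ ε : ℝ, 0 < ε → ε ≤ 1 → ∃ d₀ : ℕ, ∀ d : ℕ, d₀ ≤ d →
    ∀ μ : Fin 3 → ℕ → ℝ, (∀ j, 𝒞 d (μ j)) →
    ∀ y : ℕ, θ * Real.log d ≤ y → y ≤ K₁ * Real.log d →
    ∀ c : Fin 3 → ℤ, (∀ j, |c j| ≤ B * (b : ℤ) ^ d) → ∀ h : Fin 3 → ℕ, (∀ j, 1 ≤ h j ∧ h j ≤ d ^ J) →
    ∀ n : ℕ, ¬ 4 ∣ n → b ^ (2 * d) ≤ n * d ^ C → n ≤ b ^ (2 * d) * d ^ C →
      √(n : ℝ) ≤ ((Adm (fun j => primorial y * h j) n).card : ℝ) * (d : ℝ) ^ (6 * K₁ + 3 * J + 3) ∧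
      ∑ v ∈ Fintype.piFinset (fun _ : Fin 3 => range (b ^ d)), (if (∀ j, 0 < Nv y (h j) (c j) (κ j) (v j)) →
        |((Good n (fun j => Nv y (h j) (c j) (κ j) (v j))).card : ℝ) -
            (Adm (fun j => primorial y * h j) n).card / (V y * (d * Real.log b)) ^ 3| ≤
          ε * ((Adm (fun j => primorial y * h j) n).card / (V y * (d * Real.log b)) ^ 3) then 0 else ∏ j, μ j (v j)) ≤ ε := by
  classical
  intro κ hκ B J C K₁ θ hθ ε hε hε1
  have hb := hcls.two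
  obtain ⟨A, hA⟩ : ∃ A, A = 2 * K₁ + J := ⟨_, rfl⟩
  obtain ⟨k₀, h0⟩ := Pool.Agent.Run7.h672.XC.tuple_law hcls 3 κ hκ B J
    (3 * A + 4) (C + 2) K₁ θ hθ ε hε hε1
  obtain ⟨n0, hn0⟩ := adm_low (3 * A + 1)
  obtain ⟨k₁, h1⟩ := Pool.Agent.N625.PT.X_large b (C + 1) hb
  obtain ⟨k₂, h2⟩ := Pool.Agent.N625.PT.log_X b (C + 1) hb
  obtain ⟨k₃, h3⟩ := Pool.Agent.N625.PT.log_low b (C + 1) hb
  refine ⟨max (max k₀ k₁) (max (max k₂ k₃) (max 256 (max n0 (4 ^ (3 * A + 1))))), fun d hd μ hμ y hy1 hy2 c hc h hh n hn4 hx1 hx2 => ?_⟩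
  have b4 : 256 ≤ d := by omega
  have b5 : 4 ^ (3 * A + 1) ≤ d := by omega
  have hkr : (256 : ℝ) ≤ d := by exact_mod_cast b4
  have hk0 : (0 : ℝ) < d := by linarith
  obtain ⟨X, hX⟩ : ∃ X, X = Nat.sqrt (30 * n) := ⟨_, rfl⟩
  have a0 : X * X ≤ 30 * n := by rw [hX]; exact Nat.sqrt_le _
  have a1 : 30 * n < (X + 1) * (X + 1) := by rw [hX]; exact Nat.lt_succ_sqrt _
  have hd1 : 1 ≤ d ^ C := Nat.one_le_pow _ _ (by omega)
  have hbd : 1 ≤ b ^ d := Nat.one_le_pow _ _ (by omega)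
  have hn1 : 1 ≤ n := by
    rcases Nat.eq_zero_or_pos n with h | h
    · rw [h] at hn4
      exact absurd (dvd_zero 4) hn4
    · exact h
  have hX1' : b ^ d ≤ (X + 1) * d ^ C := by
    by_contra hcon
    have e1 : (X + 1) * d ^ C * ((X + 1) * d ^ C) < b ^ d * b ^ d := Nat.mul_lt_mul'' (by omega) (by omega)
    have e2 : b ^ (2 * d) = b ^ d * b ^ d := by rw [two_mul, pow_add]
    have e3 : n * d ^ C ≤ (X + 1) * d ^ C * ((X + 1) * d ^ C) := by
      calc n * d ^ C ≤ ((X + 1) * (X + 1)) * d ^ C := Nat.mul_le_mul_right _ (by omega)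
        _ ≤ ((X + 1) * (X + 1)) * (d ^ C * d ^ C) := Nat.mul_le_mul_left _ (Nat.le_mul_of_pos_left _ (by omega))
        _ = _ := by ring
    omega
  have hXpos : 1 ≤ X := by
    by_contra hcon
    have : X = 0 := by omega
    rw [this] at a1
    omega
  have hx1b : b ^ d ≤ X * d ^ (C + 1) := by
    calc b ^ d ≤ (X + 1) * d ^ C := hX1'
      _ ≤ (X * d) * d ^ C := Nat.mul_le_mul_right _ (by nlinarith)
      _ = _ := by rw [pow_succ]; ring
  have hx2b : X ≤ b ^ d * d ^ (C + 1) := by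
    by_contra hcon
    have e1 : b ^ d * d ^ (C + 1) * (b ^ d * d ^ (C + 1)) < X * X := Nat.mul_lt_mul'' (by omega) (by omega)
    have e2 : b ^ (2 * d) = b ^ d * b ^ d := by rw [two_mul, pow_add]
    have e3 : 30 * n ≤ b ^ d * d ^ (C + 1) * (b ^ d * d ^ (C + 1)) := by
      calc 30 * n ≤ (d * d) * (b ^ (2 * d) * d ^ C) := Nat.mul_le_mul (by nlinarith) hx2
        _ = (b ^ d * b ^ d) * (d * d * d ^ C) := by rw [e2]; ring
        _ ≤ (b ^ d * b ^ d) * (d * d * d ^ C * d ^ C) := Nat.mul_le_mul_left _ (Nat.le_mul_of_pos_right _ (by omega))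
        _ = _ := by rw [pow_succ]; ring
    omega
  have hkx := h1 d (by omega) X hx1b
  have hlx := h2 d (by omega) X hx2b
  have hll := h3 d (by omega) X hx1b
  have hln : 0 ≤ Real.log X := Real.log_natCast_nonneg X
  have hX00 : (0 : ℝ) ≤ X := Nat.cast_nonneg X
  have hDj : ∀ j, 1 ≤ primorial y * h j ∧ primorial y * h j ≤ d ^ A := by
    intro j
    refine ⟨Nat.mul_pos (primorial_pos y) (hh j).1, ?_⟩
    rw [hA]
    exact Pool.Agent.N625.PT.mult_small K₁ J d y (h j) (by omega) hy2 (hh j).2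
  obtain ⟨q, hq⟩ : ∃ q, q = (primorial y * h 0) * (primorial y * h 1) * (primorial y * h 2) := ⟨_, rfl⟩
  have hq1 : 1 ≤ q := by
    rw [hq]
    exact Nat.mul_pos (Nat.mul_pos (hDj 0).1 (hDj 1).1) (hDj 2).1
  have hDq : ∀ j, primorial y * h j ∣ q := by
    intro j
    rw [hq]
    fin_cases j
    · exact (dvd_mul_right _ _).mul_right _
    · exact (dvd_mul_left _ _).mul_right _
    · exact dvd_mul_left _ _
  have hqk : q ≤ d ^ (3 * A) := by
    rw [hq]
    calc (primorial y * h 0) * (primorial y * h 1) * (primorial y * h 2) ≤ d ^ A * d ^ A * d ^ A :=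
          Nat.mul_le_mul (Nat.mul_le_mul (hDj 0).2 (hDj 1).2) (hDj 2).2
      _ = _ := by ring
  have hqkr : (q : ℝ) ≤ (d : ℝ) ^ (3 * A) := by exact_mod_cast hqk
  have hqL : (q : ℝ) ≤ Real.log X ^ (3 * A + 1) := by
    refine hqkr.trans ?_
    have g2 : ((d : ℝ) / 4) ^ (3 * A + 1) ≤ Real.log X ^ (3 * A + 1) := pow_le_pow_left₀ (by positivity) hll _
    refine le_trans ?_ g2
    rw [div_pow, le_div_iff₀ (by positivity), pow_succ (d : ℝ)]
    have g3 : ((4 : ℝ)) ^ (3 * A + 1) ≤ d := by exact_mod_cast b5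
    exact mul_le_mul_of_nonneg_left g3 (by positivity)
  have hlow := hn0 n X hX (by omega) (fun j => primorial y * h j) q hq1 hDq hqL
  have hq0 : (0 : ℝ) < q := by exact_mod_cast (by omega : 0 < q)
  have hl0 : 0 < Real.log X := by
    have : 0 < (d : ℝ) / 4 := by positivity
    linarith
  obtain ⟨S, hS⟩ : ∃ S, S = Adm (fun j => primorial y * h j) n := ⟨_, rfl⟩
  rw [← hS] at hlow
  have hden : (X : ℝ) ≤ S.card * (d : ℝ) ^ (3 * A + 3) := by
    rw [div_le_iff₀ (by positivity)] at hlow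
    calc (X : ℝ) ≤ S.card * (256 * q * Real.log X) := hlow
      _ ≤ S.card * (d * (d : ℝ) ^ (3 * A) * (d : ℝ) ^ 2) := by gcongr
      _ = _ := by ring
  have hnX : √(n : ℝ) ≤ X := by
    rw [Real.sqrt_le_left hX00]
    have : n ≤ X ^ 2 := by nlinarith
    exact_mod_cast this
  refine ⟨by
    rw [← hS]
    refine (hnX.trans hden).trans (le_of_eq ?_)
    rw [hA]
    congr 2
    ring, ?_⟩
  have hS1 : ∀ p ∈ S, 29 * n ≤ p ^ 2 ∧ p ^ 2 ≤ 30 * n ∧ p.Prime ∧
    (p - 2).Coprime (primorial y * h 0) ∧ (p + 4).Coprime (primorial y * h 1) ∧ (p + 10).Coprime (primorial y * h 2) := by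
    intro p hp
    rw [hS] at hp
    unfold Adm at hp
    rw [mem_filter] at hp
    exact hp.2
  have hple : ∀ p : ℕ, p ^ 2 ≤ 30 * n → p ≤ X := by
    intro p hp
    rw [hX]
    exact Nat.le_sqrt'.2 hp
  have hpbig : ∀ p : ℕ, 29 * n ≤ p ^ 2 → 11 ≤ p := by
    intro p hp
    by_contra hcon
    have e1 : p * p ≤ 10 * 10 := Nat.mul_le_mul (by omega) (by omega)
    have e2 : 100 * 100 ≤ X * X := Nat.mul_le_mul (by omega) (by omega)
    rw [sq] at hp
    omega
  obtain ⟨f, hf⟩ : ∃ f : Fin 3 → ℕ → ℕ, f = ![fun p => p - 2, fun p => p + 4, fun p => p + 10] := ⟨_, rfl⟩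
  have hf0 : ∀ p, f 0 p = p - 2 := fun p => by rw [hf]; rfl
  have hf1 : ∀ p, f 1 p = p + 4 := fun p => by rw [hf]; rfl
  have hf2 : ∀ p, f 2 p = p + 10 := fun p => by rw [hf]; rfl
  have h5 := h0 d (by omega) μ hμ y hy1 hy2 c hc h hh (2 * X) (by
      refine hx1b.trans ?_
      exact Nat.mul_le_mul (by omega) (Nat.pow_le_pow_right (by omega) (by omega))) (by
      calc 2 * X ≤ d * (b ^ d * d ^ (C + 1)) := Nat.mul_le_mul (by omega) hx2b
        _ = b ^ d * d ^ (C + 2) := by rw [pow_succ d (C + 1)]; ring) S f (by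
      intro j p hp r hr hpr
      have e1 := hpbig p (hS1 p (by exact_mod_cast hp)).1
      have e2 := hpbig r (hS1 r (by exact_mod_cast hr)).1
      fin_cases j
      · have : f 0 p = f 0 r := hpr
        rw [hf0, hf0] at this
        omega
      · have : f 1 p = f 1 r := hpr
        rw [hf1, hf1] at this
        omega
      · have : f 2 p = f 2 r := hpr
        rw [hf2, hf2] at this
        omega) (by
      intro j p hp
      obtain ⟨g1, g2, g3, g4, g5, g6⟩ := hS1 p hp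
      have e1 := hpbig p g1
      have e2 := hple p g2
      fin_cases j
      · show 1 ≤ f 0 p ∧ f 0 p ≤ 2 * X ∧ (f 0 p).Coprime (primorial y * h 0)
        rw [hf0]
        exact ⟨by omega, by omega, g4⟩
      · show 1 ≤ f 1 p ∧ f 1 p ≤ 2 * X ∧ (f 1 p).Coprime (primorial y * h 1)
        rw [hf1]
        exact ⟨by omega, by omega, g5⟩
      · show 1 ≤ f 2 p ∧ f 2 p ≤ 2 * X ∧ (f 2 p).Coprime (primorial y * h 2)
        rw [hf2]
        exact ⟨by omega, by omega, g6⟩) (by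
      push_cast
      calc (2 : ℝ) * X ≤ d * (S.card * (d : ℝ) ^ (3 * A + 3)) := mul_le_mul (by linarith) hden hX00 hk0.le
        _ = _ := by ring) (fun _ => 1) (fun _ => Or.inl rfl)
  refine le_trans (sum_le_sum fun v _ => ?_) h5
  have hm0 : 0 ≤ ∏ j, μ j (v j) := prod_nonneg fun j _ => hcls.nonneg _ _ (hμ j) _
  rw [← hS]
  by_cases hgood : (∀ j, 0 < Nv y (h j) (c j) (κ j) (v j)) →
        |((Good n (fun j => Nv y (h j) (c j) (κ j) (v j))).card : ℝ) - S.card / (V y * (d * Real.log b)) ^ 3| ≤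
          ε * (S.card / (V y * (d * Real.log b)) ^ 3)
  · rw [if_pos hgood]
    split_ifs
    · exact le_rfl
    · exact hm0
  · rw [if_neg hgood, if_neg]
    intro hall
    apply hgood
    intro hpos
    have hNm : ∀ j, Pool.Agent.N625.PT.Nm y (h j) (c j) (κ j) (v j) = Nv y (h j) (c j) (κ j) (v j) := fun _ => rfl
    have h6 := hall (by
      intro j i hi
      have : (0 : ℤ) ≤ (f j i : ℤ) := Int.natCast_nonneg _
      rw [hNm]
      have := hpos j
      linarith) 3 le_rfl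
    have hset : Good n (fun j => Nv y (h j) (c j) (κ j) (v j)) = S.filter (fun i => ∀ j : Fin 3, (j : ℕ) < 3 →
        (Pool.Agent.N625.PT.Nm y (h j) (c j) (κ j) (v j) + 1 * (f j i : ℕ)).toNat.Prime) := by
      have hDN : ∀ j, ((primorial y * h j : ℕ) : ℤ) ∣ Nv y (h j) (c j) (κ j) (v j) := fun j => by
        unfold Nv
        exact dvd_mul_right _ _
      ext p
      unfold Good
      rw [mem_filter, mem_filter, mem_range]
      have e0 : 11 ≤ p → (p : ℤ) - 2 + Nv y (h 0) (c 0) (κ 0) (v 0) = Nv y (h 0) (c 0) (κ 0) (v 0) + ((p - 2 : ℕ) : ℤ) := by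
        intro hp
        rw [Nat.cast_sub (by omega)]
        push_cast
        ring
      have e1 : (p : ℤ) + 4 + Nv y (h 1) (c 1) (κ 1) (v 1) = Nv y (h 1) (c 1) (κ 1) (v 1) + ((p + 4 : ℕ) : ℤ) := by
        push_cast
        ring
      have e2 : (p : ℤ) + 10 + Nv y (h 2) (c 2) (κ 2) (v 2) = Nv y (h 2) (c 2) (κ 2) (v 2) + ((p + 10 : ℕ) : ℤ) := by
        push_cast
        ring
      constructor
      · rintro ⟨g0, g1, g2, g3, g4, g5, g6, g7⟩
        have hp11 := hpbig p g1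
        simp only at g5 g6 g7
        rw [e0 hp11] at g5
        rw [e1] at g6
        rw [e2] at g7
        refine ⟨?_, ?_⟩
        · rw [hS]
          unfold Adm
          rw [mem_filter, mem_range]
          exact ⟨g0, g1, g2, g3, cop_of (by omega) (hDj 0).1 (hpos 0) (hDN 0) g5, cop_of (by omega) (hDj 1).1 (hpos 1) (hDN 1) g6,
            cop_of (by omega) (hDj 2).1 (hpos 2) (hDN 2) g7⟩
        · intro j _
          rw [hNm, one_mul]
          fin_cases j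
          · show (Nv y (h 0) (c 0) (κ 0) (v 0) + ((f 0 p : ℕ) : ℤ)).toNat.Prime
            rw [hf0]
            exact g5
          · show (Nv y (h 1) (c 1) (κ 1) (v 1) + ((f 1 p : ℕ) : ℤ)).toNat.Prime
            rw [hf1]
            exact g6
          · show (Nv y (h 2) (c 2) (κ 2) (v 2) + ((f 2 p : ℕ) : ℤ)).toNat.Prime
            rw [hf2]
            exact g7
      · rintro ⟨g0, g1⟩
        obtain ⟨q1, q2, q3, q4, q5, q6⟩ := hS1 p g0
        have hp11 := hpbig p q1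
        have r0 := g1 0 (by norm_num)
        have r1 := g1 1 (by norm_num)
        have r2 := g1 2 (by norm_num)
        rw [hNm, one_mul, hf0] at r0
        rw [hNm, one_mul, hf1] at r1
        rw [hNm, one_mul, hf2] at r2
        have hcop30 : Nat.Coprime p 30 := by
          rw [Nat.Prime.coprime_iff_not_dvd q3]
          intro hdvd
          have hpr : p ∣ 2 * (3 * 5) := hdvd
          rcases (Nat.Prime.dvd_mul q3).1 hpr with h' | h'
          · have := Nat.le_of_dvd (by norm_num) h'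
            omega
          · rcases (Nat.Prime.dvd_mul q3).1 h' with h'' | h''
            · have := Nat.le_of_dvd (by norm_num) h''
              omega
            · have := Nat.le_of_dvd (by norm_num) h''
              omega
        obtain ⟨x, y', z, w, g8, g9⟩ := Pool.Agent.H141R2.FS.rep hn4 hcop30 q1 q2
        refine ⟨?_, q1, q2, q3, ⟨x, y', z, w, g8, g9.symm⟩, ?_, ?_, ?_⟩
        · have : p ≤ p ^ 2 := Nat.le_self_pow (by norm_num) p
          omega
        · simp only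
          rw [e0 hp11]
          exact r0
        · simp only
          rw [e1]
          exact r1
        · simp only
          rw [e2]
          exact r2
    rw [hset]
    exact h6


/-- The main term. -/
noncomputable def Main (y : ℕ) (h : Fin 3 → ℕ) (n M : ℕ) : ℝ :=
  (Adm (fun j => primorial y * h j) n).card / (V y * Real.log M) ^ 3

/-- The triple `w` is `ε`-good: if the multiples `N_j = h_j w_j ∏_{l ≤ y} l` are all positive, then the number of ALL primes `p`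
with `29 n ≤ p ^ 2 ≤ 30 n` which have the form `p = x + 2 y + 5 z` for a representation `n = x² + y² + z² + w²`, and for which
`p - 2 + N_0`, `p + 4 + N_1` and `p + 10 + N_2` are prime, differs from the main term by at most `ε` times the main term. -/
def GoodFor (ε : ℝ) (y : ℕ) (h : Fin 3 → ℕ) (n M : ℕ) (w : Fin 3 → ℤ) : Prop :=
  (∀ j, 0 < Nw y (h j) (w j)) →
    |((Good n (fun j => Nw y (h j) (w j))).card : ℝ) - Main y h n M| ≤ ε * Main y h n M

open Classical in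
/-- Let `g_j(t) = ∑ b_j x t ^ x`, `j < 3`, be generalised polynomials (real exponents and coefficients) whose largest exponents
`e_j` are positive and not integers. Let `M` be large, `X_j ^ e_j log M ≤ M ≤ X_j ^ e_j log ^ W M`, `|z_j|, |c_j| ≤ B M`
(`z_j` real, `c_j` an integer), let `y` be between `θ log log M` and `K₁ log log M` (`θ > 0` is arbitrary),
`1 ≤ h_j ≤ log ^ J M`, and let `n` be ANY integer which is not divisible by `4`, with `M² ≤ n log ^ C M`,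
`n ≤ M² log ^ C M`. Let `A` be the set of the primes `p` with `29 n ≤ p ^ 2 ≤ 30 n` such that `p - 2`, `p + 4`, `p + 10` are
prime to `h_0 ∏_{l ≤ y} l`, `h_1 ∏_{l ≤ y} l`, `h_2 ∏_{l ≤ y} l` (`l` prime). It has at least
`√n / (2 log M) ^ (6 K₁ + 3 J + 3)` elements. For all the triples of primes `(q_0, q_1, q_2)`, `X_j < q_j ≤ 2 X_j`, up to a
proportion `ε`, with `N_j = h_j (c_j + κ_j ⌊g_j(q_j) + z_j⌋) ∏_{l ≤ y} l`: if all `N_j > 0`, then the number of ALL primes `p`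
with `29 n ≤ p ^ 2 ≤ 30 n` such that `n = x² + y² + z² + w²` and `p = x + 2 y + 5 z` for some natural numbers, and such that
`p - 2 + N_0`, `p + 4 + N_1` and `p + 10 + N_2` are prime, differs from `E = #A / (V y log M) ^ 3` by at most `ε E`. -/
theorem result (F : Fin 3 → Finset ℝ) (b : Fin 3 → ℝ → ℝ) (e : Fin 3 → ℝ) (hF : ∀ j, Leading (F j) (b j) (e j))
    (κ : Fin 3 → ℤ) (hκ : ∀ j, κ j ≠ 0) (B J C K₁ W : ℕ) (θ : ℝ)
    (hθ : 0 < θ) (ε : ℝ) (hε : 0 < ε) (hε1 : ε ≤ 1) : ∃ M₀ : ℕ, ∀ M : ℕ, M₀ ≤ M →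
    ∀ X : Fin 3 → ℕ, (∀ j, (X j : ℝ) ^ (e j) * Real.log M ≤ M ∧ (M : ℝ) ≤ (X j : ℝ) ^ (e j) * Real.log M ^ W) →
    ∀ (z : Fin 3 → ℝ) (c : Fin 3 → ℤ), (∀ j, |z j| ≤ B * M ∧ |c j| ≤ B * M) →
    ∀ y : ℕ, θ * Real.log (Real.log M) ≤ y → y ≤ K₁ * Real.log (Real.log M) →
    ∀ h : Fin 3 → ℕ, (∀ j, 1 ≤ h j ∧ (h j : ℝ) ≤ Real.log M ^ J) →
    ∀ n : ℕ, ¬ 4 ∣ n → (M : ℝ) ^ 2 ≤ n * Real.log M ^ C → (n : ℝ) ≤ (M : ℝ) ^ 2 * Real.log M ^ C →
      √(n : ℝ) ≤ ((Adm (fun j => primorial y * h j) n).card : ℝ) * (2 * Real.log M) ^ (6 * K₁ + 3 * J + 3) ∧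
      (((Fintype.piFinset fun j => (Ioc (X j) (2 * X j)).filter Nat.Prime).filter fun q : Fin 3 → ℕ =>
          ¬ GoodFor ε y h n M (fun j => c j + κ j * ⌊genPoly (F j) (b j) (q j) + z j⌋)).card : ℝ) ≤
        ε * ∏ j, (((Ioc (X j) (2 * X j)).filter Nat.Prime).card : ℝ) := by
  choose hcF hmax hc hn hb using hF
  obtain ⟨ρ, hρ0, hρ1, htr⟩ := Pool.Agent.Run7.h844.RP.pr_transferV 3 F e hcF hn hc hmax b hb
  obtain ⟨k₁, htr⟩ := htr (W + 2)
  obtain ⟨L, hcls⟩ := Pool.Agent.Run7.h844.RP.pw_rcls (8 + 2 * (W + 2)) ρ hρ0 hρ1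
  obtain ⟨K, hK⟩ : ∃ K : ℕ, K = ∑ j, (κ j).natAbs := ⟨_, rfl⟩
  have hKj : ∀ j, |κ j| ≤ K := by
    intro j
    rw [← Int.natCast_natAbs, hK]
    exact_mod_cast single_le_sum (f := fun j => (κ j).natAbs) (fun _ _ => Nat.zero_le _) (mem_univ j)
  obtain ⟨k₂, hcore⟩ := core hcls κ hκ (2 * (B + K * (B + 2))) J (C + 2) K₁ (θ / 2) (by positivity) (ε / 2)
    (by positivity) (by linarith)
  obtain ⟨M₁, hM₁⟩ := Pool.Agent.Run7.h844.RP.scale_k (k₁ + k₂ + 4) (ε / 14) (by positivity)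
  refine ⟨M₁ + 1, fun M hM X hX z c hzc y hy1 hy2 h hh n hn4 hx1 hx2 => ?_⟩
  obtain ⟨hl3, hll1, k, hk, q1, q2, q3, q4, q5, q6, q7, q8⟩ := hM₁ M (by omega)
  obtain ⟨ℓ, hℓ⟩ : ∃ ℓ : ℝ, ℓ = Real.log M := ⟨_, rfl⟩
  rw [← hℓ] at hl3 hll1 q3 q4 q5 q6 q7 q8 hy1 hy2 hx1 hx2 ⊢
  simp only [← hℓ] at hX hh
  have hM0 : (0 : ℝ) < M := by exact_mod_cast (by omega : 0 < M)
  have hk4 : (4 : ℝ) ≤ k := by exact_mod_cast (by omega : 4 ≤ k)
  have hk0 : (0 : ℝ) < k := by linarith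
  have hℓ0 : 0 < ℓ := by linarith
  have q1r : 2 * (M : ℝ) < 2 ^ k := by exact_mod_cast q1
  have q2r : (2 : ℝ) ^ k ≤ 4 * M := by exact_mod_cast q2
  -- the laws
  obtain ⟨p, hp, hcount⟩ := htr k (by omega) X (fun j => by
    obtain ⟨hN1, hN2⟩ := hX j
    have hNc0 : 0 ≤ (X j : ℝ) ^ e j := by positivity
    refine ⟨by nlinarith, ?_⟩
    calc (2 : ℝ) ^ k ≤ 4 * M := q2r
      _ ≤ 4 * ((X j : ℝ) ^ e j * ℓ ^ W) := by linarith
      _ ≤ k ^ 2 * ((X j : ℝ) ^ e j * (k : ℝ) ^ W) := by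
          apply mul_le_mul (by nlinarith) _ (by positivity) (by positivity)
          exact mul_le_mul_of_nonneg_left (pow_le_pow_left₀ hℓ0.le q3 W) hNc0
      _ = (X j : ℝ) ^ e j * (k : ℝ) ^ (W + 2) := by ring) z
  -- the constants
  obtain ⟨cc, hcc⟩ : ∃ cc : Fin 3 → ℤ, ∀ j, cc j = c j + κ j * (⌊z j⌋ - 2 ^ (k - 1)) := ⟨_, fun _ => rfl⟩
  have hMz : (M : ℤ) ≤ 2 ^ k := by exact_mod_cast (by omega : M ≤ 2 ^ k)
  have hpz : (2 : ℤ) ^ (k - 1) ≤ 2 ^ k := pow_le_pow_right₀ (by norm_num) (by omega)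
  have hp0 : (0 : ℤ) < 2 ^ (k - 1) := by positivity
  have hp1 : (0 : ℤ) < 2 ^ k := by positivity
  have hfz : ∀ j, |⌊z j⌋| ≤ B * M + 1 := by
    intro j
    have e1 : |z j| ≤ ((B * M : ℕ) : ℝ) := by push_cast; exact (hzc j).1
    rw [abs_le] at e1 ⊢
    have e2 : ⌊z j⌋ ≤ (B * M : ℕ) := by
      have := (Int.floor_le (z j)).trans e1.2
      exact_mod_cast this
    have e3 : -((B * M : ℕ) : ℤ) ≤ ⌊z j⌋ := by
      rw [Int.le_floor]
      push_cast
      push_cast at e1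
      exact e1.1
    push_cast at e2 e3
    constructor <;> linarith
  have hcb : ∀ j, |cc j| ≤ ((2 * (B + K * (B + 2)) : ℕ) : ℤ) * ((2 : ℕ) : ℤ) ^ k := by
    intro j
    have e1 : |(⌊z j⌋ - 2 ^ (k - 1) : ℤ)| ≤ (B + 2) * 2 ^ k := by
      calc |(⌊z j⌋ - 2 ^ (k - 1) : ℤ)| ≤ |⌊z j⌋| + |(2 : ℤ) ^ (k - 1)| := abs_sub _ _
        _ ≤ (B * M + 1) + 2 ^ k := by
            rw [abs_of_pos hp0]
            exact add_le_add (hfz j) hpz
        _ ≤ (B * 2 ^ k + 2 ^ k) + 2 ^ k := by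
            have : (B : ℤ) * M ≤ B * 2 ^ k := mul_le_mul_of_nonneg_left hMz (by positivity)
            linarith
        _ = _ := by ring
    have e2 : |c j| ≤ B * 2 ^ k := (hzc j).2.trans (mul_le_mul_of_nonneg_left hMz (by positivity))
    have e3 : |cc j| ≤ B * 2 ^ k + K * ((B + 2) * 2 ^ k) := by
      rw [hcc]
      refine (abs_add_le _ _).trans (add_le_add e2 ?_)
      rw [abs_mul]
      exact mul_le_mul (hKj j) e1 (abs_nonneg _) (by positivity)
    push_cast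
    have e4 : 0 ≤ K * ((B + 2) * 2 ^ k : ℤ) := by positivity
    have e5 : (0 : ℤ) ≤ B * 2 ^ k := by positivity
    linarith
  -- the ranges
  have hk2 : ℓ ^ J ≤ (k : ℝ) ^ J := pow_le_pow_left₀ hℓ0.le q3 J
  have hhk : ∀ j, 1 ≤ h j ∧ h j ≤ k ^ J := by
    intro j
    refine ⟨(hh j).1, ?_⟩
    have := (hh j).2.trans hk2
    exact_mod_cast this
  have hkC : ℓ ^ C ≤ (k : ℝ) ^ C := pow_le_pow_left₀ hℓ0.le q3 C
  have hx0 : (0 : ℝ) ≤ n := Nat.cast_nonneg n
  have hxa : 2 ^ (2 * k) ≤ n * k ^ (C + 2) := by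
    have : (2 : ℝ) ^ (2 * k) ≤ n * (k : ℝ) ^ (C + 2) := by
      calc (2 : ℝ) ^ (2 * k) = 2 ^ k * 2 ^ k := by rw [two_mul, pow_add]
        _ ≤ (4 * M) * (4 * M) := mul_le_mul q2r q2r (by positivity) (by positivity)
        _ = (4 * 4) * (M : ℝ) ^ 2 := by ring
        _ ≤ (k * k) * (n * (k : ℝ) ^ C) := by
            apply mul_le_mul (by nlinarith) (hx1.trans (mul_le_mul_of_nonneg_left hkC hx0)) (by positivity) (by positivity)
        _ = _ := by ring
    exact_mod_cast this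
  have hxb : n ≤ 2 ^ (2 * k) * k ^ (C + 2) := by
    have : (n : ℝ) ≤ 2 ^ (2 * k) * (k : ℝ) ^ (C + 2) := by
      calc (n : ℝ) ≤ (M : ℝ) ^ 2 * ℓ ^ C := hx2
        _ ≤ (2 ^ k) ^ 2 * (k : ℝ) ^ C := by
            apply mul_le_mul _ hkC (by positivity) (by positivity)
            exact pow_le_pow_left₀ hM0.le (by linarith) 2
        _ = 2 ^ (2 * k) * (k : ℝ) ^ C := by rw [← pow_mul, mul_comm k 2]
        _ ≤ 2 ^ (2 * k) * (k : ℝ) ^ (C + 2) := by
            apply mul_le_mul_of_nonneg_left _ (by positivity)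
            exact pow_le_pow_right₀ (by linarith) (by omega)
    exact_mod_cast this
  obtain ⟨h4, h5⟩ := hcore k (by omega) p hp y (by
      have : θ / 2 * Real.log k ≤ θ / 2 * (2 * Real.log ℓ) := mul_le_mul_of_nonneg_left q6 (by positivity)
      linarith) (by
      have : (K₁ : ℝ) * Real.log ℓ ≤ K₁ * Real.log k := mul_le_mul_of_nonneg_left q5 (Nat.cast_nonneg _)
      linarith) cc hcb h hhk n hn4 hxa hxb
  refine ⟨h4.trans ?_, ?_⟩
  · apply mul_le_mul_of_nonneg_left _ (Nat.cast_nonneg _)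
    exact pow_le_pow_left₀ hk0.le q4 _
  have h6 := hcount (ε / 2) (fun v => GoodFor ε y h n M (fun j => c j + κ j * v j)) (by
    refine le_trans (sum_le_sum fun v _ => ?_) h5
    have hv0 : 0 ≤ ∏ j, p j (v j) := prod_nonneg fun j _ => (hp j).nonneg _
    have hw : (fun j => c j + κ j * (⌊z j⌋ - 2 ^ (k - 1) + ((v j : ℕ) : ℤ))) = fun j => cc j + κ j * v j := by
      funext j
      rw [hcc]
      ring
    rw [hw]
    by_cases hg : GoodFor ε y h n M (fun j => cc j + κ j * v j)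
    · rw [if_pos hg]
      split_ifs
      · exact le_rfl
      · exact hv0
    · rw [if_neg hg, if_neg]
      intro hcon
      apply hg
      intro hpos
      have hNN : ∀ j, Nw y (h j) (cc j + κ j * v j) = Nv y (h j) (cc j) (κ j) (v j) := fun _ => rfl
      simp only [hNN] at hpos ⊢
      have h7 := hcon hpos
      unfold Main
      rw [← hℓ]
      have hVy : 0 < V y := Pool.Agent.H373R2.T7.Vz_pos y
      obtain ⟨S, hS⟩ : ∃ S : ℝ, S = (Adm (fun j => primorial y * h j) n).card := ⟨_, rfl⟩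
      have hS0 : 0 ≤ S := by rw [hS]; exact Nat.cast_nonneg _
      rw [← hS] at h7 ⊢
      push_cast at h7
      have hkl : 0 < k * Real.log 2 := by linarith
      have h8 := Pool.Agent.Run7.h844.RP.main_conv (E := S / (V y * ℓ) ^ 3)
        (E' := S / (V y * (k * Real.log 2)) ^ 3) (η := ε / 2) (by
          apply div_le_div_of_nonneg_left hS0 (by positivity)
          exact pow_le_pow_left₀ (by positivity) (mul_le_mul_of_nonneg_left q7 hVy.le) 3) (by
          rw [mul_div_assoc', div_le_div_iff₀ (by positivity) (by positivity)]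
          have e1 : (V y * (k * Real.log 2)) ^ 3 ≤ (V y * ((1 + ε / 14) * ℓ)) ^ 3 :=
            pow_le_pow_left₀ (by positivity) (mul_le_mul_of_nonneg_left q8 hVy.le) 3
          have e2 : (1 + ε / 14) ^ 3 ≤ 1 + ε / 2 := by nlinarith [mul_pos hε hε]
          calc S * (V y * (k * Real.log 2)) ^ 3 ≤ S * (V y * ((1 + ε / 14) * ℓ)) ^ 3 := mul_le_mul_of_nonneg_left e1 hS0
            _ = (1 + ε / 14) ^ 3 * S * (V y * ℓ) ^ 3 := by ring
            _ ≤ (1 + ε / 2) * S * (V y * ℓ) ^ 3 := by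
                apply mul_le_mul_of_nonneg_right _ (by positivity)
                exact mul_le_mul_of_nonneg_right e2 hS0) (by positivity) (by positivity) h7
      refine h8.trans (le_of_eq ?_)
      ring)
  have hfin : (∏ j, ((Pool.Agent.Run7.h844.RP.PB (X j)).card : ℝ)) * (ε / 2) ≤
      ε * ∏ j, ((Pool.Agent.Run7.h844.RP.PB (X j)).card : ℝ) := by
    have : (0 : ℝ) ≤ ∏ j, ((Pool.Agent.Run7.h844.RP.PB (X j)).card : ℝ) := prod_nonneg fun j _ => Nat.cast_nonneg _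
    nlinarith
  exact h6.trans hfin

end Pool.Agent.Results.MP_40574a_nt.ValuesAtPrimes
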